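import Pool.Agent.X19.RS.Stm

set_option autoImplicit false

open MeasureTheory ProbabilityTheory Filter Topology
open scoped ENNReal Matrix

namespace Pool.Agent.X304.RS

open Pool.Agent.X19.SS Pool.Agent.X19.RS

variable {K : Type} [RCLike K]

theorem frob2_conj {m k : ℕ} (M : Matrix (Fin m) (Fin k) K) : frob2 Mᴴ = frob2 M := by
  unfold frob2
  rw [Finset.sum_comm]
  refine Finset.sum_congr rfl fun i _ => Finset.sum_congr rfl fun j _ => ?_
  rw [Matrix.conjTranspose_apply]
  congr 1
  rw [enorm_eq_nnnorm, enorm_eq_nnnorm, nnnorm_star]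

theorem frob2_right {m k : ℕ} (V : Matrix (Fin k) (Fin k) K) (hV : V ∈ Matrix.unitaryGroup (Fin k) K)
    (M : Matrix (Fin m) (Fin k) K) : frob2 (M * V) = frob2 M := by
  rw [← frob2_conj (M * V), Matrix.conjTranspose_mul]
  have := frob2_unitary (⟨V, hV⟩ : UG K k) Mᴴ
  rw [show ((⟨V, hV⟩ : UG K k) : Matrix (Fin k) (Fin k) K) = V from rfl] at this
  rw [this, frob2_conj]

theorem err_cont {d n l : ℕ} (A : Matrix (Fin d) (Fin n) K) (C : Matrix (Fin l) (Fin n) K) :
    Continuous fun X : Fin n → Fin l → K => frob2 (A - A * (Matrix.of X) * C) := by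
  unfold frob2
  refine continuous_finset_sum _ fun i _ => continuous_finset_sum _ fun j _ => ?_
  refine (ENNReal.continuous_pow 2).comp (continuous_enorm.comp ?_)
  simp only [Matrix.sub_apply, Matrix.mul_apply, Matrix.of_apply]
  refine continuous_const.sub (continuous_finset_sum _ fun k _ => Continuous.mul ?_ continuous_const)
  exact continuous_finset_sum _ fun m _ => continuous_const.mul (continuous_apply_apply m k)

theorem t_ERR : S_ERR := by
  intro K _ _ _ d n l A
  refine ⟨?_, ?_, ?_⟩
  · have h : UpperSemicontinuous fun X : Fin n → Fin l → K => err A (Matrix.of X) := by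
      unfold err
      exact upperSemicontinuous_iInf fun C => (err_cont A C).upperSemicontinuous
    exact h.measurable
  · intro X R hR
    have hdet : IsUnit R.det := (Matrix.isUnit_iff_isUnit_det R).1 hR
    unfold err
    apply le_antisymm
    · refine le_iInf fun C => iInf_le_of_le (R⁻¹ * C) (le_of_eq ?_)
      congr 2
      rw [← Matrix.mul_assoc A X R, Matrix.mul_assoc (A * X) R (R⁻¹ * C), ← Matrix.mul_assoc R R⁻¹ C,
        Matrix.mul_nonsing_inv _ hdet, Matrix.one_mul]
    · refine le_iInf fun C => iInf_le_of_le (R * C) (le_of_eq ?_)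
      congr 2
      rw [← Matrix.mul_assoc A X R, Matrix.mul_assoc (A * X) R C]
  · intro V hV X
    have h1 : V * Vᴴ = 1 := by
      have := Matrix.mem_unitaryGroup_iff.1 hV
      rwa [Matrix.star_eq_conjTranspose] at this
    have h2 : Vᴴ * V = 1 := by
      have := Matrix.mem_unitaryGroup_iff'.1 hV
      rwa [Matrix.star_eq_conjTranspose] at this
    unfold err
    apply le_antisymm
    · refine le_iInf fun C => iInf_le_of_le (C * V) (le_of_eq ?_)
      rw [← frob2_right V hV (A - A * (V * X) * C)]
      congr 1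
      rw [Matrix.sub_mul, ← Matrix.mul_assoc (A * V * X) C V, ← Matrix.mul_assoc A V X]
    · refine le_iInf fun C => iInf_le_of_le (C * Vᴴ) (le_of_eq ?_)
      rw [← frob2_right V hV (A - A * (V * X) * (C * Vᴴ))]
      congr 1
      rw [Matrix.sub_mul, ← Matrix.mul_assoc A V X, Matrix.mul_assoc (A * V * X) (C * Vᴴ) V,
        Matrix.mul_assoc C Vᴴ V, h2, Matrix.mul_one]

end Pool.Agent.X304.RS
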